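import Pool.Agent.Lib.MP_b0c2b5_co.AT.K7
import Pool.Agent.Lib.MP_b0c2b5_co.Mg.G001

/-!
# AT, A0: grafting `t` independent copies of a branch (common to Lemma A and Lemma B).
-/

set_option autoImplicit false

namespace Pool.Agent.Lib.MP_b0c2b5_co.AT

open LS Filter
open scoped Classical

variable {V : Type}

theorem ev_rt_sb {t m : ℕ} (τ : Nd t (m + 1) → V) (i : Fin t) (o : Option (Nd t m)) :
    ev (rt τ i) (sb τ i) o = τ ((i, o) : Nd t (m + 1)) := by
  cases o <;> rfl

theorem outT_succ_iff {W : World V} {t m : ℕ} {x : V} {τ : Nd t (m + 1) → V} :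
    OutT W x τ ↔ (∀ i, W.r x (rt τ i) ∧ OutT W (rt τ i) (sb τ i)) ∧
      ∀ i j, i ≠ j → ¬ Cross W (rt τ i) (sb τ i) (rt τ j) (sb τ j) := by
  constructor
  · rintro ⟨h1, h2, h3⟩
    refine ⟨fun i => ⟨h1 (i, none), fun n => ?_, h2 i⟩, h3⟩
    have := h1 ((i, some n) : Nd t (m + 1))
    rw [ev_rt_sb]
    exact this
  · rintro ⟨h1, h2⟩
    refine ⟨?_, fun i => (h1 i).2.2, h2⟩
    rintro ⟨i, o⟩
    cases o with
    | none => exact (h1 i).1
    | some n =>
      have := (h1 i).2.1 n
      rw [ev_rt_sb] at this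
      exact this

theorem outT_lt {W : World V} {t : ℕ} : ∀ {m : ℕ} {x : V} {τ : Nd t m → V}, OutT W x τ → ∀ n, W.lt x (τ n) := by
  intro m
  induction m with
  | zero => intro x τ _ n; exact n.elim
  | succ m ih =>
    intro x τ h
    rw [outT_succ_iff] at h
    rintro ⟨i, o⟩
    cases o with
    | none => exact W.ho.arc _ _ (h.1 i).1
    | some n => exact W.ho.trans _ _ _ (W.ho.arc _ _ (h.1 i).1) (ih (h.1 i).2 n)

theorem outT_fib {W : World V} {t : ℕ} : ∀ {m : ℕ} {x : V} {τ : Nd t m → V}, OutT W x τ → ∀ n, W.fib (τ n) = W.fib x := by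
  intro m
  induction m with
  | zero => intro x τ _ n; exact n.elim
  | succ m ih =>
    intro x τ h
    rw [outT_succ_iff] at h
    rintro ⟨i, o⟩
    cases o with
    | none => exact (W.rf _ _ (h.1 i).1).symm
    | some n => exact (ih (h.1 i).2 n).trans (W.rf _ _ (h.1 i).1).symm

/-- the ancestors in the tree with root `none` -/
noncomputable def ancO {t m : ℕ} : Option (Nd t m) → Finset (Option (Nd t m))
  | none => ∅
  | some n => insert none ((anc n).image some)

theorem mem_anc_iff {t m : ℕ} {i : Fin t} {o : Option (Nd t m)} {n : Nd t (m + 1)} :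
    n ∈ @anc t (m + 1) (i, o) ↔ n.1 = i ∧ n.2 ∈ ancO o := by
  obtain ⟨j, o'⟩ := n
  cases o with
  | none =>
    exact ⟨fun h => absurd h (Finset.notMem_empty _), fun h => absurd h.2 (Finset.notMem_empty _)⟩
  | some n =>
    rw [anc, ancO]
    erw [Finset.mem_insert, Finset.mem_image]
    rw [Finset.mem_insert, Finset.mem_image]
    constructor
    · rintro (h | ⟨n', hn', h⟩)
      · obtain ⟨h1, h2⟩ := Prod.mk.inj h
        exact ⟨h1, Or.inl h2⟩
      · obtain ⟨h1, h2⟩ := Prod.mk.inj h
        exact ⟨h1.symm, Or.inr ⟨n', hn', h2⟩⟩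
    · rintro ⟨h0, h | ⟨n', hn', h⟩⟩
      · exact Or.inl (Prod.ext h0 h)
      · exact Or.inr ⟨n', hn', Prod.ext h0.symm h⟩

theorem none_mem_ancO {t m : ℕ} (n : Nd t m) : (none : Option (Nd t m)) ∈ ancO (some n) := by
  unfold ancO
  exact Finset.mem_insert_self _ _

theorem some_mem_ancO {t m : ℕ} (n n' : Nd t m) : some n' ∈ ancO (some n) ↔ n' ∈ anc n := by
  unfold ancO
  rw [Finset.mem_insert, Finset.mem_image]
  constructor
  · rintro (h | ⟨k, hk, h⟩)
    · exact absurd h (by simp)
    · rw [Option.some_inj] at h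
      rwa [← h]
  · intro h
    exact Or.inr ⟨n', h, rfl⟩

/-- what the ancestors know, in the tree with root -/
theorem res_ancO_some {t m : ℕ} (x : V) (τ : Nd t m → V) (n : Nd t m) (o : Option (Nd t m)) :
    res (ancO (some n)) (ev x τ) o = (match o with
      | none => some x
      | some n' => res (anc n) τ n') := by
  cases o with
  | none =>
    unfold res
    rw [if_pos (none_mem_ancO n)]
    rfl
  | some n' =>
    unfold res
    by_cases h : n' ∈ anc n
    · rw [if_pos ((some_mem_ancO n n').2 h)]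
      show some (τ n') = if n' ∈ anc n then some (τ n') else none
      rw [if_pos h]
    · rw [if_neg fun h' => h ((some_mem_ancO n n').1 h')]
      show none = if n' ∈ anc n then some (τ n') else none
      rw [if_neg h]

theorem res_empty {I : Type} (z : I → V) : res (∅ : Finset I) z = fun _ => none := by
  funext i
  exact if_neg (Finset.notMem_empty i)

/-- the finite set of all families of vertices in the fibre of `x` -/
theorem exists_fibset (W : World V) {J : Type} [Fintype J] (x : V) :
    ∃ D : Finset (J → V), ∀ z, z ∈ D ↔ ∀ j, W.fib (z j) = W.fib x := by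
  have : {z : J → V | ∀ j, W.fib (z j) = W.fib x}.Finite := by
    have h := Set.Finite.pi' (fun _ : J => W.fin (W.fib x))
    exact h
  exact ⟨this.toFinset, fun z => by rw [Set.Finite.mem_toFinset]; rfl⟩

theorem unk_eq_ne {Ω : Type} {p : Ultrafilter Ω} {x y : Ω → V} (h : Unk p x y (EQr V)) :
    ∀ᶠ ω in (p : Filter Ω), x ω ≠ y ω := by
  have := h (fun a v => if v = a then (1 : ℝ) else 0) (fun a => subset_convexHull _ _ ⟨a, rfl⟩) 1 one_pos
  filter_upwards [this] with ω hω hxy
  rw [hxy, if_pos rfl] at hω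
  exact lt_irrefl _ hω

/-- grafting `t` independent copies of a branch -/
theorem graft {W : World V} {q : Ultrafilter V} {U : Set (Set (V → ℝ))} (S : Sys W q U) {t m : ℕ} {Ω A : Type}
    (p : Ultrafilter Ω) (X : Ω → A) (ξ : A → V) (NN : Set (Set (V → ℝ))) (hNN : ∀ K ∈ NN, IsRes K)
    (hCF : ∀ p' : Ultrafilter (V × V), CA W q U p' Prod.fst Prod.snd →
      (∀ K ∈ NN, Unk p' Prod.fst Prod.snd K) → False)
    (r : Ultrafilter (A × (Option (Nd t m) → V))) (hr : r.map Prod.fst = p.map X)
    (hout : ∀ᶠ w in (r : Filter (A × (Option (Nd t m) → V))),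
      W.r (ξ w.1) (w.2 none) ∧ OutT W (w.2 none) (fun n => w.2 (some n)))
    (hq : ∀ o, r.map (fun w => w.2 o) = q)
    (hfr : ∀ o, Fr U r (fun w => (w.1, res (ancO o) w.2)) (fun w => w.2 o))
    (hnn : ∀ K ∈ NN, ∀ n, Unk r Prod.fst (fun w => w.2 (some n)) K) :
    ∃ p' : Ultrafilter (Ω × (Nd t (m + 1) → V)), p'.map Prod.fst = p ∧
      (∀ i : Fin t, p'.map (fun w => (X w.1, fun o => w.2 ((i, o) : Nd t (m + 1)))) = r) ∧
      (∀ᶠ w in (p' : Filter (Ω × (Nd t (m + 1) → V))), OutT W (ξ (X w.1)) w.2) ∧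
      (∀ n, Fr U p' (fun w => (w.1, res (anc n) w.2)) (fun w => w.2 n)) := by
  have : Nonempty V := Filter.nonempty_of_neBot (q : Filter V)
  choose D0 hD0 using fun a : A => exists_fibset W (J := Option (Nd t m)) (ξ a)
  obtain ⟨p', h1, h2, h3, h4⟩ := copies t p X r hr D0 (by
    filter_upwards [hout] with w hw
    rw [hD0]
    intro o
    cases o with
    | none => exact (W.rf _ _ hw.1).symm
    | some n => exact (outT_fib hw.2 n).trans (W.rf _ _ hw.1).symm)
  -- the copies are free over each other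
  have hF : ∀ i j, i ≠ j → ∀ a b, ∀ K ∈ U, Unk p' (fun w => w.2 i a) (fun w => w.2 j b) K := by
    intro i j hij a b K hK
    refine Unk.comp (fun d => (d.2 i a).getD (Classical.arbitrary V)) ?_ (h3 j b (ancO b) K (S.res K hK) (hfr b K hK))
    refine Filter.Eventually.of_forall fun w => ?_
    show w.2 i a = ((if i = j then res (ancO b) (w.2 j) else fun n => some (w.2 i n)) a).getD _
    rw [if_neg hij]
    rfl
  have hN : ∀ i j, i ≠ j → ∀ a n, ∀ K ∈ NN, Unk p' (fun w => w.2 i a) (fun w => w.2 j (some n)) K := by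
    intro i j hij a n K hK
    have e0 : Unk r (fun w => (w.1, res (∅ : Finset (Option (Nd t m))) w.2)) (fun w => w.2 (some n)) K := by
      refine Unk.comp (fun a => (a, fun _ => none)) ?_ (hnn K hK n)
      refine Filter.Eventually.of_forall fun w => ?_
      refine Prod.ext rfl ?_
      funext o
      show (if o ∈ (∅ : Finset (Option (Nd t m))) then some (w.2 o) else none) = none
      exact if_neg (Finset.notMem_empty o)
    refine Unk.comp (fun d => (d.2 i a).getD (Classical.arbitrary V)) ?_ (h3 j (some n) ∅ K (hNN K hK) e0)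
    refine Filter.Eventually.of_forall fun w => ?_
    show w.2 i a = ((if i = j then res ∅ (w.2 j) else fun n => some (w.2 i n)) a).getD _
    rw [if_neg hij]
    rfl
  have hqq : ∀ i a, p'.map (fun w => w.2 i a) = q := by
    intro i a
    rw [← hq a, ← h2 i, Ultrafilter.map_map]
    rfl
  have hev : ∀ i, ∀ᶠ w in (p' : Filter (Ω × (Fin t → Option (Nd t m) → V))),
      W.r (ξ (X w.1)) (w.2 i none) ∧ OutT W (w.2 i none) (fun n => w.2 i (some n)) := by
    intro i
    have : {w : A × (Option (Nd t m) → V) | W.r (ξ w.1) (w.2 none) ∧ OutT W (w.2 none) (fun n => w.2 (some n))} ∈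
        p'.map (fun w => (X w.1, w.2 i)) := by
      rw [h2 i]
      exact hout
    exact this
  have hne : ∀ i j a b, i ≠ j → ∀ᶠ w in (p' : Filter (Ω × (Fin t → Option (Nd t m) → V))), w.2 i a ≠ w.2 j b :=
    fun i j a b hij => unk_eq_ne (hF i j hij a b _ S.eq)
  have harc : ∀ i j a n, i ≠ j → ∀ᶠ w in (p' : Filter (Ω × (Fin t → Option (Nd t m) → V))),
      ¬ W.r (w.2 i a) (w.2 j (some n)) := by
    intro i j a n hij
    by_contra hcon
    rw [← Ultrafilter.eventually_not] at hcon
    simp only [not_not] at hcon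
    refine hCF (p'.map fun w => (w.2 i a, w.2 j (some n))) ?_ ?_
    · rw [CA.map]
      exact ⟨hqq i a, hqq j _, hcon, hF i j hij a _, hF j i hij.symm _ a⟩
    · intro K hK
      rw [unk_map]
      exact hN i j hij a n K hK
  refine ⟨p'.map (fun w => (w.1, fun n : Nd t (m + 1) => w.2 n.1 n.2)), ?_, ?_, ?_, ?_⟩
  · rw [Ultrafilter.map_map]
    exact h1
  · intro i
    rw [Ultrafilter.map_map]
    exact h2 i
  · show ∀ᶠ w in (p' : Filter (Ω × (Fin t → Option (Nd t m) → V))),
      OutT W (ξ (X w.1)) (fun n : Nd t (m + 1) => w.2 n.1 n.2)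
    have hall1 := Filter.eventually_all.2 hev
    have hall2 : ∀ᶠ w in (p' : Filter (Ω × (Fin t → Option (Nd t m) → V))), ∀ i j a b, i ≠ j → w.2 i a ≠ w.2 j b := by
      refine Filter.eventually_all.2 fun i => Filter.eventually_all.2 fun j => Filter.eventually_all.2 fun a =>
        Filter.eventually_all.2 fun b => ?_
      by_cases hij : i = j
      · exact Filter.Eventually.of_forall fun _ h => absurd hij h
      · filter_upwards [hne i j a b hij] with w hw _
        exact hw
    have hall3 : ∀ᶠ w in (p' : Filter (Ω × (Fin t → Option (Nd t m) → V))), ∀ i j a n, i ≠ j →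
        ¬ W.r (w.2 i a) (w.2 j (some n)) := by
      refine Filter.eventually_all.2 fun i => Filter.eventually_all.2 fun j => Filter.eventually_all.2 fun a =>
        Filter.eventually_all.2 fun b => ?_
      by_cases hij : i = j
      · exact Filter.Eventually.of_forall fun _ h => absurd hij h
      · filter_upwards [harc i j a b hij] with w hw _
        exact hw
    filter_upwards [hall1, hall2, hall3] with w k1 k2 k3
    rw [outT_succ_iff]
    refine ⟨fun i => k1 i, ?_⟩
    rintro i j hij ⟨a, b, hab⟩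
    rw [ev_rt_sb, ev_rt_sb] at hab
    rcases hab with hab | hab
    · exact k2 i j a b hij hab
    · cases b with
      | some n => exact k3 i j a n hij hab
      | none =>
        have hlt : W.lt (ξ (X w.1)) (w.2 i a) := by
          cases a with
          | none => exact W.ho.arc _ _ (k1 i).1
          | some n => exact W.ho.trans _ _ _ (W.ho.arc _ _ (k1 i).1) (outT_lt (k1 i).2 n)
        exact W.ho.sf _ _ _ (k1 j).1 hlt (W.ho.arc _ _ hab)
  · rintro ⟨i, o⟩ K hK
    rw [unk_map]
    refine Unk.comp (fun d => (d.1, fun n : Nd t (m + 1) => if n ∈ @anc t (m + 1) (i, o) then d.2 n.1 n.2 else none))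
      ?_ (h3 i o (ancO o) K (S.res K hK) (hfr o K hK))
    refine Filter.Eventually.of_forall fun w => ?_
    refine Prod.ext rfl ?_
    funext n
    show (if n ∈ @anc t (m + 1) (i, o) then some (w.2 n.1 n.2) else none) =
      if n ∈ @anc t (m + 1) (i, o) then
        (if n.1 = i then res (ancO o) (w.2 i) else fun k => some (w.2 n.1 k)) n.2 else none
    by_cases hn : n ∈ @anc t (m + 1) (i, o)
    · rw [if_pos hn, if_pos hn]
      obtain ⟨e1, e2⟩ := mem_anc_iff.1 hn
      rw [if_pos e1]
      unfold res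
      rw [if_pos e2, e1]
    · rw [if_neg hn, if_neg hn]

end Pool.Agent.Lib.MP_b0c2b5_co.AT
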