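import Pool.Agent.Lib.MP_b0c2b5_co.Mg.G001

/-!
# AT, N1: nodes. API for `Nd`, `fa`, `anc`, `seg`, `res`.

`n0 i` is the `i`-th child of the root, `n1 i k` the node `k` of its subtree, both of type `Nd t (m + 1)` (raw pairs
`(i, none)` make `rw` / `simp` fail). `ndc` is the case distinction: `induction n using ndc with | h0 i => .. | h1 i k => ..`.
-/

set_option autoImplicit false

namespace Pool.Agent.Lib.MP_b0c2b5_co.AT

open LS Filter
open scoped Classical

variable {V : Type}

/-- the `i`-th child of the root -/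
def n0 {t m : ℕ} (i : Fin t) : Nd t (m + 1) := (i, none)

/-- the node `k` of the subtree at the `i`-th child -/
def n1 {t m : ℕ} (i : Fin t) (k : Nd t m) : Nd t (m + 1) := (i, some k)

/-- cases -/
@[elab_as_elim]
theorem ndc {t m : ℕ} {motive : Nd t (m + 1) → Prop} (h0 : ∀ i, motive (n0 i)) (h1 : ∀ i k, motive (n1 i k))
    (n : Nd t (m + 1)) : motive n := by
  rcases n with ⟨i, _ | k⟩
  · exact h0 i
  · exact h1 i k

theorem n0_inj {t m : ℕ} {i j : Fin t} : (n0 i : Nd t (m + 1)) = n0 j ↔ i = j :=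
  ⟨fun h => (Prod.mk.inj h).1, fun h => h ▸ rfl⟩

theorem n1_inj {t m : ℕ} {i j : Fin t} {k l : Nd t m} : n1 i k = n1 j l ↔ i = j ∧ k = l :=
  ⟨fun h => ⟨(Prod.mk.inj h).1, Option.some.inj (Prod.mk.inj h).2⟩, fun ⟨h, h'⟩ => h ▸ h' ▸ rfl⟩

theorem n0_ne_n1 {t m : ℕ} {i j : Fin t} {k : Nd t m} : (n0 i : Nd t (m + 1)) ≠ n1 j k :=
  fun h => absurd (Prod.mk.inj h).2 (by simp)

theorem n1_ne_n0 {t m : ℕ} {i j : Fin t} {k : Nd t m} : n1 j k ≠ (n0 i : Nd t (m + 1)) :=
  fun h => n0_ne_n1 h.symm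

theorem rt_eq {t m : ℕ} (τ : Nd t (m + 1) → V) (i : Fin t) : rt τ i = τ (n0 i) := rfl

theorem sb_eq {t m : ℕ} (τ : Nd t (m + 1) → V) (i : Fin t) (k : Nd t m) : sb τ i k = τ (n1 i k) := rfl

theorem gr_n0 {t m : ℕ} (P : Fin t → V) (T : Fin t → Nd t m → V) (i : Fin t) : gr P T (n0 i) = P i := rfl

theorem gr_n1 {t m : ℕ} (P : Fin t → V) (T : Fin t → Nd t m → V) (i : Fin t) (k : Nd t m) :
    gr P T (n1 i k) = T i k := rfl

theorem rt_gr {t m : ℕ} (P : Fin t → V) (T : Fin t → Nd t m → V) (i : Fin t) : rt (gr P T) i = P i := rfl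

theorem sb_gr {t m : ℕ} (P : Fin t → V) (T : Fin t → Nd t m → V) (i : Fin t) : sb (gr P T) i = T i := rfl

/-- the node of the whole tree for a node or the root of the subtree -/
def nO {t m : ℕ} (i : Fin t) : Option (Nd t m) → Nd t (m + 1)
  | none => n0 i
  | some k => n1 i k

theorem ev_sub {t m : ℕ} (τ : Nd t (m + 1) → V) (i : Fin t) (o : Option (Nd t m)) :
    ev (rt τ i) (sb τ i) o = τ (nO i o) := by
  cases o <;> rfl

theorem ev_none {t m : ℕ} (x : V) (τ : Nd t m → V) : ev x τ none = x := rfl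

theorem ev_some {t m : ℕ} (x : V) (τ : Nd t m → V) (n : Nd t m) : ev x τ (some n) = τ n := rfl

theorem fa_n0 {t m : ℕ} (i : Fin t) : fa (n0 i : Nd t (m + 1)) = none := rfl

theorem fa_n1 {t m : ℕ} (i : Fin t) (k : Nd t m) : fa (n1 i k) = some (nO i (fa k)) := by
  show some ((i, fa k) : Nd t (m + 1)) = _
  cases fa k <;> rfl

/-- the father of `n1 i k` seen in the subtree -/
theorem ev_fa_n1 {t m : ℕ} (x : V) (τ : Nd t (m + 1) → V) (i : Fin t) (k : Nd t m) :
    ev x τ (fa (n1 i k)) = ev (rt τ i) (sb τ i) (fa k) := by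
  rw [fa_n1, ev_sub, ev_some]

theorem ev_fa_n0 {t m : ℕ} (x : V) (τ : Nd t (m + 1) → V) (i : Fin t) :
    ev x τ (fa (n0 i : Nd t (m + 1))) = x := rfl

theorem anc_n0 {t m : ℕ} (i : Fin t) : anc (n0 i : Nd t (m + 1)) = ∅ := rfl

theorem mem_anc_n1 {t m : ℕ} (i : Fin t) (k : Nd t m) (n : Nd t (m + 1)) :
    n ∈ anc (n1 i k) ↔ n = n0 i ∨ ∃ k' ∈ anc k, n = n1 i k' := by
  have h : anc (n1 i k) = insert (n0 i) ((anc k).image (fun n' => n1 i n')) := by
    unfold n1
    rw [anc.eq_3]
    rfl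
  rw [h, Finset.mem_insert, Finset.mem_image]
  constructor
  · rintro (h | ⟨a, ha, h⟩)
    · exact Or.inl h
    · exact Or.inr ⟨a, ha, h.symm⟩
  · rintro (h | ⟨a, ha, h⟩)
    · exact Or.inl h
    · exact Or.inr ⟨a, ha, h.symm⟩

theorem n0_mem_anc_n1 {t m : ℕ} (i j : Fin t) (k : Nd t m) : n0 j ∈ anc (n1 i k) ↔ j = i := by
  rw [mem_anc_n1]
  constructor
  · rintro (h | ⟨a, _, h⟩)
    · exact n0_inj.1 h
    · exact absurd h n0_ne_n1
  · rintro rfl
    exact Or.inl rfl

theorem n1_mem_anc_n1 {t m : ℕ} (i j : Fin t) (k k' : Nd t m) : n1 j k' ∈ anc (n1 i k) ↔ j = i ∧ k' ∈ anc k := by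
  rw [mem_anc_n1]
  constructor
  · rintro (h | ⟨a, ha, h⟩)
    · exact absurd h n1_ne_n0
    · obtain ⟨h1, h2⟩ := n1_inj.1 h
      exact ⟨h1, h2 ▸ ha⟩
  · rintro ⟨rfl, h⟩
    exact Or.inr ⟨k', h, rfl⟩

theorem not_mem_anc_n0 {t m : ℕ} (i : Fin t) (n : Nd t (m + 1)) : n ∉ anc (n0 i : Nd t (m + 1)) :=
  Finset.notMem_empty _

/-- a node is not its own ancestor -/
theorem not_mem_anc_self {t : ℕ} : ∀ {m : ℕ} (n : Nd t m), n ∉ anc n
  | 0, n => n.elim
  | m + 1, n => by
    induction n using ndc with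
    | h0 i => exact not_mem_anc_n0 i _
    | h1 i k =>
      rw [n1_mem_anc_n1]
      exact fun h => not_mem_anc_self k h.2

/-- the father is an ancestor -/
theorem fa_mem_anc {t : ℕ} : ∀ {m : ℕ} (n a : Nd t m), fa n = some a → a ∈ anc n
  | 0, n, _, _ => n.elim
  | m + 1, n, a, h => by
    induction n using ndc with
    | h0 i => exact absurd h (by rw [fa_n0]; simp)
    | h1 i k =>
      rw [fa_n1] at h
      obtain rfl := Option.some.inj h
      cases hk : fa k with
      | none => exact (n0_mem_anc_n1 i i k).2 rfl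
      | some k' => exact (n1_mem_anc_n1 i i k k').2 ⟨rfl, fa_mem_anc k k' hk⟩

/-- ancestors of the father -/
theorem anc_fa_subset {t : ℕ} : ∀ {m : ℕ} (n a : Nd t m), fa n = some a → anc n = insert a (anc a)
  | 0, n, _, _ => n.elim
  | m + 1, n, a, h => by
    induction n using ndc with
    | h0 i => exact absurd h (by rw [fa_n0]; simp)
    | h1 i k =>
      rw [fa_n1] at h
      obtain rfl := Option.some.inj h
      cases hk : fa k with
      | none =>
        have hk0 : anc k = ∅ := by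
          clear h
          cases m with
          | zero => exact k.elim
          | succ m =>
            induction k using ndc with
            | h0 j => rfl
            | h1 j l => exact absurd hk (by rw [fa_n1]; simp)
        ext n
        rw [mem_anc_n1, hk0]
        show _ ↔ n ∈ insert (n0 i) (anc (n0 i))
        rw [anc_n0, Finset.mem_insert]
        simp
      | some k' =>
        have hk1 := anc_fa_subset k k' hk
        ext n
        show _ ↔ n ∈ insert (n1 i k') (anc (n1 i k'))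
        rw [mem_anc_n1, Finset.mem_insert, mem_anc_n1, hk1]
        constructor
        · rintro (h | ⟨a, ha, h⟩)
          · exact Or.inr (Or.inl h)
          · rw [Finset.mem_insert] at ha
            rcases ha with rfl | ha
            · exact Or.inl h
            · exact Or.inr (Or.inr ⟨a, ha, h⟩)
        · rintro (h | h | ⟨a, ha, h⟩)
          · exact Or.inr ⟨k', Finset.mem_insert_self _ _, h⟩
          · exact Or.inl h
          · exact Or.inr ⟨a, Finset.mem_insert_of_mem ha, h⟩

/-! ### restrictions -/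

theorem res_apply {I : Type} (s : Finset I) (z : I → V) (i : I) :
    res s z i = if i ∈ s then some (z i) else none := rfl

theorem res_pos {I : Type} {s : Finset I} {i : I} (z : I → V) (h : i ∈ s) : res s z i = some (z i) := if_pos h

theorem res_neg {I : Type} {s : Finset I} {i : I} (z : I → V) (h : i ∉ s) : res s z i = none := if_neg h

theorem res_empty {I : Type} (z : I → V) : res (∅ : Finset I) z = fun _ => none := by
  ext1 i
  exact res_neg z (Finset.notMem_empty i)

/-- less information -/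
noncomputable def cut {I : Type} (s : Finset I) (f : I → Option V) : I → Option V := fun i => if i ∈ s then f i else none

theorem cut_res {I : Type} {s s' : Finset I} (h : s ⊆ s') (z : I → V) : cut s (res s' z) = res s z := by
  ext1 i
  unfold cut
  by_cases hi : i ∈ s
  · rw [if_pos hi, res_pos z hi, res_pos z (h hi)]
  · rw [if_neg hi, res_neg z hi]

/-- a branch at position `i`: the vertex at the child of the root and partial information on the subtree -/
noncomputable def lift1 {t m : ℕ} (i : Fin t) (r : Option V) (s : Nd t m → Option V) : Nd t (m + 1) → Option V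
  | (j, none) => if j = i then r else none
  | (j, some k) => if j = i then s k else none

theorem lift1_n0 {t m : ℕ} (i j : Fin t) (r : Option V) (s : Nd t m → Option V) :
    lift1 i r s (n0 j) = if j = i then r else none := rfl

theorem lift1_n1 {t m : ℕ} (i j : Fin t) (r : Option V) (s : Nd t m → Option V) (k : Nd t m) :
    lift1 i r s (n1 j k) = if j = i then s k else none := rfl

/-- restriction to a set of nodes contained in one branch -/
theorem res_lift1 {t m : ℕ} (τ : Nd t (m + 1) → V) (i : Fin t) (s : Finset (Nd t (m + 1))) (s' : Finset (Nd t m))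
    (b : Prop) (h0 : ∀ j, n0 j ∈ s ↔ j = i ∧ b) (h1 : ∀ j k, n1 j k ∈ s ↔ j = i ∧ k ∈ s') :
    res s τ = lift1 i (if b then some (rt τ i) else none) (res s' (sb τ i)) := by
  ext1 n
  induction n using ndc with
  | h0 j =>
    rw [lift1_n0, res_apply]
    by_cases hj : j = i
    · subst hj
      by_cases hb : b
      · rw [if_pos ((h0 j).2 ⟨rfl, hb⟩), if_pos rfl, if_pos hb]
        rfl
      · rw [if_neg (fun h => hb ((h0 j).1 h).2), if_pos rfl, if_neg hb]
    · rw [if_neg (fun h => hj ((h0 j).1 h).1), if_neg hj]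
  | h1 j k =>
    rw [lift1_n1, res_apply]
    by_cases hj : j = i
    · subst hj
      rw [if_pos rfl]
      by_cases hk : k ∈ s'
      · rw [if_pos ((h1 j k).2 ⟨rfl, hk⟩), res_pos _ hk]
        rfl
      · rw [if_neg (fun h => hk ((h1 j k).1 h).2), res_neg _ hk]
    · rw [if_neg (fun h => hj ((h1 j k).1 h).1), if_neg hj]

theorem res_anc_n0 {t m : ℕ} (τ : Nd t (m + 1) → V) (i : Fin t) :
    res (anc (n0 i : Nd t (m + 1))) τ = fun _ => none := by
  rw [anc_n0, res_empty]

theorem res_anc_n1 {t m : ℕ} (τ : Nd t (m + 1) → V) (i : Fin t) (k : Nd t m) :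
    res (anc (n1 i k)) τ = lift1 i (some (rt τ i)) (res (anc k) (sb τ i)) := by
  have := res_lift1 τ i (anc (n1 i k)) (anc k) True (fun j => by rw [n0_mem_anc_n1, and_true])
    (fun j k' => n1_mem_anc_n1 i j k k')
  rwa [if_pos trivial] at this

theorem res_ins_n0 {t m : ℕ} (τ : Nd t (m + 1) → V) (i : Fin t) :
    res (insert (n0 i) (anc (n0 i : Nd t (m + 1)))) τ = lift1 i (some (rt τ i)) (fun _ => none) := by
  have := res_lift1 τ i (insert (n0 i) (anc (n0 i : Nd t (m + 1)))) ∅ True
    (fun j => by rw [anc_n0, Finset.mem_insert, n0_inj]; simp)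
    (fun j k' => by
      rw [anc_n0, Finset.mem_insert]
      constructor
      · rintro (h | h)
        · exact absurd h n1_ne_n0
        · exact absurd h (Finset.notMem_empty _)
      · rintro ⟨_, h⟩
        exact absurd h (Finset.notMem_empty _))
  rwa [if_pos trivial, res_empty] at this

theorem res_ins_n1 {t m : ℕ} (τ : Nd t (m + 1) → V) (i : Fin t) (k : Nd t m) :
    res (insert (n1 i k) (anc (n1 i k))) τ = lift1 i (some (rt τ i)) (res (insert k (anc k)) (sb τ i)) := by
  have := res_lift1 τ i (insert (n1 i k) (anc (n1 i k))) (insert k (anc k)) True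
    (fun j => by
      rw [Finset.mem_insert, n0_mem_anc_n1, and_true]
      exact ⟨fun h => h.elim (fun h => absurd h n0_ne_n1) id, Or.inr⟩)
    (fun j k' => by
      rw [Finset.mem_insert, n1_mem_anc_n1, n1_inj, Finset.mem_insert]
      tauto)
  rwa [if_pos trivial] at this

theorem mem_seg {t m : ℕ} (a n n' : Nd t m) : n' ∈ seg a n ↔ n' = n ∨ (n' ∈ anc n ∧ a ∈ anc n') := by
  unfold seg
  rw [Finset.mem_insert, Finset.mem_filter]

theorem res_seg_n0 {t m : ℕ} (τ : Nd t (m + 1) → V) (i : Fin t) (k : Nd t m) :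
    res (seg (n0 i) (n1 i k)) τ = lift1 i none (res (insert k (anc k)) (sb τ i)) := by
  have := res_lift1 τ i (seg (n0 i) (n1 i k)) (insert k (anc k)) False
    (fun j => by
      rw [mem_seg, and_false, iff_false]
      rintro (h | ⟨_, h⟩)
      · exact n0_ne_n1 h
      · exact not_mem_anc_n0 j _ h)
    (fun j k' => by
      rw [mem_seg, n1_inj, n1_mem_anc_n1, n0_mem_anc_n1, Finset.mem_insert]
      constructor
      · rintro (⟨h1, h2⟩ | ⟨⟨h1, h2⟩, _⟩)
        · exact ⟨h1, Or.inl h2⟩
        · exact ⟨h1, Or.inr h2⟩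
      · rintro ⟨h1, h2 | h2⟩
        · exact Or.inl ⟨h1, h2⟩
        · exact Or.inr ⟨⟨h1, h2⟩, h1.symm⟩)
  rwa [if_neg not_false] at this

theorem res_seg_n1 {t m : ℕ} (τ : Nd t (m + 1) → V) (i : Fin t) (a k : Nd t m) :
    res (seg (n1 i a) (n1 i k)) τ = lift1 i none (res (seg a k) (sb τ i)) := by
  have := res_lift1 τ i (seg (n1 i a) (n1 i k)) (seg a k) False
    (fun j => by
      rw [mem_seg, and_false, iff_false]
      rintro (h | ⟨_, h⟩)
      · exact n0_ne_n1 h
      · exact not_mem_anc_n0 j _ h)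
    (fun j k' => by
      rw [mem_seg, n1_inj, n1_mem_anc_n1, n1_mem_anc_n1, mem_seg]
      constructor
      · rintro (⟨h1, h2⟩ | ⟨⟨h1, h2⟩, _, h3⟩)
        · exact ⟨h1, Or.inl h2⟩
        · exact ⟨h1, Or.inr ⟨h2, h3⟩⟩
      · rintro ⟨h1, h2 | ⟨h2, h3⟩⟩
        · exact Or.inl ⟨h1, h2⟩
        · exact Or.inr ⟨⟨h1, h2⟩, h1.symm, h3⟩)
  rwa [if_neg not_false] at this

/-! ### induced trees -/

theorem outT_succ {W : World V} {t m : ℕ} {x : V} {τ : Nd t (m + 1) → V} :
    OutT W x τ ↔ (∀ i, W.r x (rt τ i) ∧ OutT W (rt τ i) (sb τ i)) ∧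
      ∀ i j, i ≠ j → ¬ Cross W (rt τ i) (sb τ i) (rt τ j) (sb τ j) := by
  constructor
  · rintro ⟨h1, h2, h3⟩
    refine ⟨fun i => ⟨h1 (n0 i), fun k => ?_, h2 i⟩, h3⟩
    have := h1 (n1 i k)
    rwa [ev_fa_n1] at this
  · rintro ⟨h1, h2⟩
    refine ⟨fun n => ?_, fun i => (h1 i).2.2, h2⟩
    induction n using ndc with
    | h0 i => exact (h1 i).1
    | h1 i k =>
      rw [ev_fa_n1]
      exact (h1 i).2.1 k

end Pool.Agent.Lib.MP_b0c2b5_co.AT
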