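import Pool.Agent.Lib.MP_b0c2b5_co.Mg.G001
import Pool.Agent.Lib.MP_b0c2b5_co.AT.N1

/-!
# AT, E1: existence of the finite data (paper, section 3).

Compactness: the family of all finite data is directed (`combine`, `InFC.and`); if no finite data is `Emp`, there is an
ultrafilter of trees which satisfy all the finite data, and this is an F-tree (a bi-free tree) of depth `m + 1`.
-/

set_option autoImplicit false

namespace Pool.Agent.Lib.MP_b0c2b5_co.AT

open LS Filter
open scoped Classical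

variable {V : Type}

/-! ### generalities -/

theorem E1_cpt {Z ι : Type} [hi : Nonempty ι] (C : ι → Set Z) (hdir : ∀ i j, ∃ k, C k ⊆ C i ∩ C j)
    (h : ∀ i, (C i).Nonempty) : ∃ p : Ultrafilter Z, ∀ i, C i ∈ p := by
  have hd : Directed (· ≥ ·) (fun i => 𝓟 (C i)) := by
    intro i j
    obtain ⟨k, hk⟩ := hdir i j
    exact ⟨k, by simpa using hk.trans Set.inter_subset_left, by simpa using hk.trans Set.inter_subset_right⟩
  haveI : Nonempty Z := by
    obtain ⟨i⟩ := hi
    exact ⟨(h i).some⟩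
  have hne : (⨅ i, 𝓟 (C i)).NeBot := iInf_neBot_of_directed hd fun i => principal_neBot_iff.2 (h i)
  obtain ⟨p, hp⟩ := (⨅ i, 𝓟 (C i)).exists_ultrafilter_le
  exact ⟨p, fun i => hp (Filter.mem_iInf_of_mem i (mem_principal_self _))⟩

theorem E1_map_eq {Z : Type} {p : Ultrafilter Z} {q : Ultrafilter V} {f : Z → V}
    (h : ∀ A ∈ q, ∀ᶠ w in (p : Filter Z), f w ∈ A) : p.map f = q := by
  refine Ultrafilter.coe_le_coe.1 ?_
  rw [Ultrafilter.coe_map]
  intro A hA
  exact h A hA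

theorem E1_nonempty {W : World V} {q : Ultrafilter V} {U : Set (Set (V → ℝ))} (_S : Sys W q U) : Nonempty V :=
  q.neBot.nonempty

theorem E1_k0 {W : World V} {q : Ultrafilter V} {U : Set (Set (V → ℝ))} (S : Sys W q U) : ∃ k0, k0 ∈ EQr V := by
  obtain ⟨v⟩ := E1_nonempty S
  exact ⟨_, subset_convexHull ℝ _ ⟨v, rfl⟩⟩

theorem E1_inFC_true {W : World V} {q : Ultrafilter V} {U : Set (Set (V → ℝ))} (S : Sys W q U) :
    InFC W q U (fun _ _ => True) := by
  obtain ⟨k0, hk0⟩ := E1_k0 S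
  exact ⟨Set.univ, Filter.univ_mem, EQr V, S.eq, fun _ => k0, fun _ => k0, fun _ => hk0, fun _ => hk0, 1, one_pos,
    fun _ _ _ _ _ _ _ => trivial⟩

theorem E1_inFC_fw {W : World V} {q : Ultrafilter V} {U : Set (Set (V → ℝ))} {K : Set (V → ℝ)} (hK : K ∈ U)
    {g : V → V → ℝ} (hg : ∀ x, g x ∈ K) {δ : ℝ} (hδ : 0 < δ) : InFC W q U (fun x y => g x y < δ) :=
  ⟨Set.univ, Filter.univ_mem, K, hK, g, g, hg, hg, δ, hδ, fun _ _ _ _ _ h _ => h⟩

theorem E1_inFC_bw {W : World V} {q : Ultrafilter V} {U : Set (Set (V → ℝ))} {K : Set (V → ℝ)} (hK : K ∈ U)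
    {g : V → V → ℝ} (hg : ∀ x, g x ∈ K) {δ : ℝ} (hδ : 0 < δ) : InFC W q U (fun x y => g y x < δ) :=
  ⟨Set.univ, Filter.univ_mem, K, hK, g, g, hg, hg, δ, hδ, fun _ _ _ _ _ _ h => h⟩

/-! ### F-trees -/

/-- the trees which satisfy the finite data -/
def E1_CF {W : World V} {q : Ultrafilter V} {U : Set (Set (V → ℝ))} {t m : ℕ} (F : FD W q U t m) :
    Set (V × (Nd t (m + 1) → V)) :=
  {w | (∀ i, F.Good w.1 (rt w.2 i) (sb w.2 i)) ∧
    ∀ i j, i ≠ j → ¬ Cross W (rt w.2 i) (sb w.2 i) (rt w.2 j) (sb w.2 j)}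

/-- an ultrafilter containing all the sets `E1_CF F` is an F-tree -/
theorem E1_isF {W : World V} {q : Ultrafilter V} {U : Set (Set (V → ℝ))} (S : Sys W q U) {t m : ℕ} (ht : 0 < t)
    (p : Ultrafilter (V × (Nd t (m + 1) → V))) (hp : ∀ F : FD W q U t m, E1_CF F ∈ p) :
    IsF W q U p Prod.fst Prod.snd := by
  obtain ⟨k0, hk0⟩ := E1_k0 S
  -- vertices
  have hA : ∀ A ∈ q, ∀ᶠ w in (p : Filter (V × (Nd t (m + 1) → V))), w.1 ∈ A ∧ ∀ n, w.2 n ∈ A := by
    intro A hA
    filter_upwards [hp ⟨A, hA, fun _ _ => True, E1_inFC_true S, EQr V, S.eq, fun _ => k0, fun _ => hk0,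
      fun _ _ _ _ => k0, fun _ _ _ _ => hk0, 1, one_pos⟩] with w hw
    refine ⟨(hw.1 ⟨0, ht⟩).1.1, fun n => ?_⟩
    induction n using ndc with
    | h0 i => exact (hw.1 i).1.2.1
    | h1 i k => exact (hw.1 i).1.2.2.1 k
  have hev : ∀ A ∈ q, ∀ o, ∀ᶠ w in (p : Filter (V × (Nd t (m + 1) → V))), ev w.1 w.2 o ∈ A := by
    intro A hA' o
    filter_upwards [hA A hA'] with w hw
    cases o with
    | none => exact hw.1
    | some n => exact hw.2 n
  -- arcs
  have hφ : ∀ φ, InFC W q U φ → ∀ n, ∀ᶠ w in (p : Filter (V × (Nd t (m + 1) → V))),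
      W.r (ev w.1 w.2 (fa n)) (w.2 n) ∧ φ (ev w.1 w.2 (fa n)) (w.2 n) := by
    intro φ hφ n
    filter_upwards [hp ⟨Set.univ, Filter.univ_mem, φ, hφ, EQr V, S.eq, fun _ => k0, fun _ => hk0,
      fun _ _ _ _ => k0, fun _ _ _ _ => hk0, 1, one_pos⟩] with w hw
    induction n using ndc with
    | h0 i => exact ⟨(hw.1 i).1.2.2.2.1, (hw.1 i).1.2.2.2.2.1⟩
    | h1 i k =>
      rw [ev_fa_n1]
      exact ⟨(hw.1 i).1.2.2.2.2.2.2.1 k, (hw.1 i).1.2.2.2.2.2.1 k⟩
  refine ⟨E1_map_eq fun A hA' => (hA A hA').mono fun w hw => hw.1, fun n => ⟨E1_map_eq fun A hA' => hev A hA' _,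
    E1_map_eq fun A hA' => (hA A hA').mono fun w hw => hw.2 n,
    (hφ _ (E1_inFC_true S) n).mono fun w hw => hw.1, ?_, ?_⟩, ?_, ?_⟩
  · intro K hK g hg δ hδ
    exact (hφ _ (E1_inFC_fw hK hg hδ) n).mono fun w hw => hw.2
  · intro K hK g hg δ hδ
    exact (hφ _ (E1_inFC_bw hK hg hδ) n).mono fun w hw => hw.2
  · filter_upwards [hp ⟨Set.univ, Filter.univ_mem, fun _ _ => True, E1_inFC_true S, EQr V, S.eq, fun _ => k0,
      fun _ => hk0, fun _ _ _ _ => k0, fun _ _ _ _ => hk0, 1, one_pos⟩] with w hw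
    rw [outT_succ]
    exact ⟨fun i => ⟨(hw.1 i).1.2.2.2.1, (hw.1 i).1.2.2.2.2.2.2⟩, hw.2⟩
  · intro n K hK g hg δ hδ
    induction n using ndc with
    | h0 i =>
      filter_upwards [hp ⟨Set.univ, Filter.univ_mem, fun _ _ => True, E1_inFC_true S, K, hK,
        fun e => g (e, fun _ => none), fun e => hg _, fun _ e _ _ => g (e, fun _ => none), fun _ _ _ _ => hg _,
        δ, hδ⟩] with w hw
      rw [res_anc_n0]
      exact (hw.1 i).2.1
    | h1 i k =>
      filter_upwards [hp ⟨Set.univ, Filter.univ_mem, fun _ _ => True, E1_inFC_true S, K, hK,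
        fun e => g (e, fun _ => none), fun e => hg _, fun _ e v s => g (e, lift1 i (some v) s), fun _ _ _ _ => hg _,
        δ, hδ⟩] with w hw
      rw [res_anc_n1]
      exact (hw.1 i).2.2 k

/-- finite data are directed -/
theorem E1_joinF {W : World V} {q : Ultrafilter V} {U : Set (Set (V → ℝ))} (S : Sys W q U) {t m : ℕ}
    (F F' : FD W q U t m) : ∃ F'' : FD W q U t m, ∀ e p τ, F''.Good e p τ → F.Good e p τ ∧ F'.Good e p τ := by
  obtain ⟨K', hK', _, g', hg', η', hη', hc⟩ := combine S (J := Bool)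
    (D := V ⊕ (Nd t m × V × V × (Nd t m → Option V))) (fun j => if j then F.K else F'.K)
    (by rintro (_ | _) <;> simp [F.hK, F'.hK])
    (fun j d => match d with
      | Sum.inl e => if j then F.g0 e else F'.g0 e
      | Sum.inr (n, e, p, s) => if j then F.g n e p s else F'.g n e p s)
    (by
      rintro (_ | _) (e | ⟨n, e, p, s⟩)
      · simpa using F'.hg0 e
      · simpa using F'.hg n e p s
      · simpa using F.hg0 e
      · simpa using F.hg n e p s)
    (fun j => if j then F.η else F'.η) (by rintro (_ | _) <;> simp [F.hη, F'.hη])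
  refine ⟨⟨F.A ∩ F'.A, Filter.inter_mem F.hA F'.hA, fun x y => F.φ x y ∧ F'.φ x y, InFC.and S F.hφ F'.hφ, K', hK',
    fun e => g' (Sum.inl e), fun e => hg' _, fun n e p s => g' (Sum.inr (n, e, p, s)), fun _ _ _ _ => hg' _, η', hη'⟩,
    ?_⟩
  rintro e p τ ⟨⟨he, hp, hn, hr, hφ, hφn, ho⟩, h0, h1⟩
  have h0' := hc _ _ h0
  have h1' := fun n => hc _ _ (h1 n)
  refine ⟨⟨⟨he.1, hp.1, fun n => (hn n).1, hr, hφ.1, fun n => (hφn n).1, ho⟩, by simpa using h0' true,
    fun n => by simpa using h1' n true⟩,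
    ⟨⟨he.2, hp.2, fun n => (hn n).2, hr, hφ.2, fun n => (hφn n).2, ho⟩, by simpa using h0' false,
    fun n => by simpa using h1' n false⟩⟩

/-- for `t = 0` there are trees of all depths -/
theorem E1_zero {W : World V} {q : Ultrafilter V} {U : Set (Set (V → ℝ))} {m : ℕ} :
    ∃ p : Ultrafilter (V × (Nd 0 (m + 1) → V)), IsB W q U p Prod.fst Prod.snd := by
  refine ⟨q.map (fun v => (v, fun n => (n.1 : Fin 0).elim0)), ⟨⟨?_, fun n => (n.1 : Fin 0).elim0, ?_,
    fun n => (n.1 : Fin 0).elim0⟩, fun n => (n.1 : Fin 0).elim0, fun n => (n.1 : Fin 0).elim0⟩⟩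
  · rw [Ultrafilter.map_map]
    exact Ultrafilter.map_id' _
  · refine Filter.Eventually.of_forall fun w => ⟨fun n => (n.1 : Fin 0).elim0, fun i => i.elim0, fun i => i.elim0⟩

/-- existence of finite data for F-trees -/
theorem fd_of_not0 {W : World V} {q : Ultrafilter V} {U : Set (Set (V → ℝ))} (S : Sys W q U) {t m : ℕ}
    (h : ¬ ∃ p : Ultrafilter (V × (Nd t (m + 1) → V)), IsF W q U p Prod.fst Prod.snd) :
    ∃ F : FD W q U t m, F.Emp := by
  by_contra hcon
  push Not at hcon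
  rcases Nat.eq_zero_or_pos t with rfl | ht
  · obtain ⟨p, hp⟩ := E1_zero (W := W) (q := q) (U := U) (m := m)
    exact h ⟨p, hp.toIsF⟩
  obtain ⟨k0, hk0⟩ := E1_k0 S
  haveI : Nonempty (FD W q U t m) := ⟨⟨Set.univ, Filter.univ_mem, fun _ _ => True, E1_inFC_true S, EQr V, S.eq,
    fun _ => k0, fun _ => hk0, fun _ _ _ _ => k0, fun _ _ _ _ => hk0, 1, one_pos⟩⟩
  obtain ⟨p, hp⟩ := E1_cpt (fun F : FD W q U t m => E1_CF F) (by
    intro F F'
    obtain ⟨F'', hF''⟩ := E1_joinF S F F'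
    refine ⟨F'', fun w hw => ⟨⟨fun i => (hF'' _ _ _ (hw.1 i)).1, hw.2⟩, ⟨fun i => (hF'' _ _ _ (hw.1 i)).2, hw.2⟩⟩⟩)
    (by
      intro F
      have := hcon F
      unfold FD.Emp at this
      push Not at this
      obtain ⟨e, P, T, hg, hc⟩ := this
      exact ⟨(e, gr P T), hg, hc⟩)
  exact h ⟨p, E1_isF S ht p hp⟩

/-! ### bi-free trees -/

/-- the trees which satisfy the finite data -/
def E1_CB {W : World V} {q : Ultrafilter V} {U : Set (Set (V → ℝ))} {t m : ℕ} (F : BD W q U t m) :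
    Set (V × (Nd t (m + 1) → V)) :=
  {w | (∀ i, F.toFD.Good w.1 (rt w.2 i) (sb w.2 i) ∧ F.Inn (rt w.2 i) (sb w.2 i) ∧
    F.Bck w.1 (rt w.2 i) (sb w.2 i)) ∧
    ∀ i j, i ≠ j → ¬ Cross W (rt w.2 i) (sb w.2 i) (rt w.2 j) (sb w.2 j)}

/-- finite data for bi-free trees are directed -/
theorem E1_joinB {W : World V} {q : Ultrafilter V} {U : Set (Set (V → ℝ))} (S : Sys W q U) {t m : ℕ}
    (F F' : BD W q U t m) : ∃ F'' : BD W q U t m, ∀ e p τ, F''.toFD.Good e p τ ∧ F''.Inn p τ ∧ F''.Bck e p τ →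
      (F.toFD.Good e p τ ∧ F.Inn p τ ∧ F.Bck e p τ) ∧ (F'.toFD.Good e p τ ∧ F'.Inn p τ ∧ F'.Bck e p τ) := by
  obtain ⟨K', hK', _, g', hg', η', hη', hc⟩ := combine S (J := Bool)
    (D := (V ⊕ (Nd t m × V × V × (Nd t m → Option V))) ⊕ (V ⊕ ((Nd t m × V × (Nd t m → Option V)) ⊕
      ((Nd t m × (Nd t m → Option V)) ⊕ (Nd t m × Nd t m × (Nd t m → Option V))))))
    (fun j => if j then F.K else F'.K)
    (by rintro (_ | _) <;> simp [F.hK, F'.hK])
    (fun j d => match d with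
      | Sum.inl (Sum.inl e) => if j then F.g0 e else F'.g0 e
      | Sum.inl (Sum.inr (n, e, p, s)) => if j then F.g n e p s else F'.g n e p s
      | Sum.inr (Sum.inl p) => if j then F.b0 p else F'.b0 p
      | Sum.inr (Sum.inr (Sum.inl (n, p, s))) => if j then F.be n p s else F'.be n p s
      | Sum.inr (Sum.inr (Sum.inr (Sum.inl (n, s)))) => if j then F.bx n s else F'.bx n s
      | Sum.inr (Sum.inr (Sum.inr (Sum.inr (n, a, s)))) => if j then F.bn n a s else F'.bn n a s)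
    (by
      rintro (_ | _) ((e | ⟨n, e, p, s⟩) | (p | (⟨n, p, s⟩ | (⟨n, s⟩ | ⟨n, a, s⟩))))
      · simpa using F'.hg0 e
      · simpa using F'.hg n e p s
      · simpa using F'.hb0 p
      · simpa using F'.hbe n p s
      · simpa using F'.hbx n s
      · simpa using F'.hbn n a s
      · simpa using F.hg0 e
      · simpa using F.hg n e p s
      · simpa using F.hb0 p
      · simpa using F.hbe n p s
      · simpa using F.hbx n s
      · simpa using F.hbn n a s)
    (fun j => if j then F.η else F'.η) (by rintro (_ | _) <;> simp [F.hη, F'.hη])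
  refine ⟨{
    A := F.A ∩ F'.A
    hA := Filter.inter_mem F.hA F'.hA
    φ := fun x y => F.φ x y ∧ F'.φ x y
    hφ := InFC.and S F.hφ F'.hφ
    K := K'
    hK := hK'
    g0 := fun e => g' (Sum.inl (Sum.inl e))
    hg0 := fun e => hg' _
    g := fun n e p s => g' (Sum.inl (Sum.inr (n, e, p, s)))
    hg := fun _ _ _ _ => hg' _
    η := η'
    hη := hη'
    b0 := fun p => g' (Sum.inr (Sum.inl p))
    hb0 := fun p => hg' _
    be := fun n p s => g' (Sum.inr (Sum.inr (Sum.inl (n, p, s))))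
    hbe := fun _ _ _ => hg' _
    bx := fun n s => g' (Sum.inr (Sum.inr (Sum.inr (Sum.inl (n, s)))))
    hbx := fun _ _ => hg' _
    bn := fun n a s => g' (Sum.inr (Sum.inr (Sum.inr (Sum.inr (n, a, s)))))
    hbn := fun _ _ _ => hg' _ }, ?_⟩
  rintro e p τ ⟨⟨⟨he, hp, hn, hr, hφ, hφn, ho⟩, h0, h1⟩, ⟨h2, h3⟩, h4, h5⟩
  have h0' := hc _ _ h0
  have h1' := fun n => hc _ _ (h1 n)
  have h2' := fun n => hc _ _ (h2 n)
  have h3' := fun n a (ha : a ∈ anc n) => hc _ _ (h3 n a ha)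
  have h4' := hc _ _ h4
  have h5' := fun n => hc _ _ (h5 n)
  refine ⟨⟨⟨⟨he.1, hp.1, fun n => (hn n).1, hr, hφ.1, fun n => (hφn n).1, ho⟩, by simpa using h0' true,
    fun n => by simpa using h1' n true⟩, ⟨fun n => by simpa using h2' n true,
    fun n a ha => by simpa using h3' n a ha true⟩, by simpa using h4' true, fun n => by simpa using h5' n true⟩,
    ⟨⟨⟨he.2, hp.2, fun n => (hn n).2, hr, hφ.2, fun n => (hφn n).2, ho⟩, by simpa using h0' false,
    fun n => by simpa using h1' n false⟩, ⟨fun n => by simpa using h2' n false,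
    fun n a ha => by simpa using h3' n a ha false⟩, by simpa using h4' false, fun n => by simpa using h5' n false⟩⟩

/-- finite data from all the functions -/
noncomputable def E1_mkB {W : World V} {q : Ultrafilter V} {U : Set (Set (V → ℝ))} {t m : ℕ} (F : FD W q U t m)
    {k : V → ℝ} (hk : k ∈ F.K) : BD W q U t m where
  toFD := F
  b0 := fun _ => k
  hb0 := fun _ => hk
  be := fun _ _ _ => k
  hbe := fun _ _ _ => hk
  bx := fun _ _ => k
  hbx := fun _ _ => hk
  bn := fun _ _ _ => k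
  hbn := fun _ _ _ => hk

/-- base data with resource `K` -/
noncomputable def E1_base {W : World V} {q : Ultrafilter V} {U : Set (Set (V → ℝ))} (S : Sys W q U) {t m : ℕ}
    {K : Set (V → ℝ)} (hK : K ∈ U) {k : V → ℝ} (hk : k ∈ K) {δ : ℝ} (hδ : 0 < δ) : FD W q U t m :=
  ⟨Set.univ, Filter.univ_mem, fun _ _ => True, E1_inFC_true S, K, hK, fun _ => k, fun _ => hk, fun _ _ _ _ => k,
    fun _ _ _ _ => hk, δ, hδ⟩

/-- existence of finite data for bi-free trees -/
theorem bd_of_not0 {W : World V} {q : Ultrafilter V} {U : Set (Set (V → ℝ))} (S : Sys W q U) {t m : ℕ}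
    (h : ¬ ∃ p : Ultrafilter (V × (Nd t (m + 1) → V)), IsB W q U p Prod.fst Prod.snd) :
    ∃ F : BD W q U t m, F.Emp := by
  by_contra hcon
  push Not at hcon
  rcases Nat.eq_zero_or_pos t with rfl | ht
  · exact h (E1_zero (W := W) (q := q) (U := U) (m := m))
  obtain ⟨k0, hk0⟩ := E1_k0 S
  haveI : Nonempty (BD W q U t m) := ⟨E1_mkB (E1_base S S.eq hk0 one_pos) hk0⟩
  obtain ⟨p, hp⟩ := E1_cpt (fun F : BD W q U t m => E1_CB F) (by
    intro F F'
    obtain ⟨F'', hF''⟩ := E1_joinB S F F'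
    exact ⟨F'', fun w hw => ⟨⟨fun i => (hF'' _ _ _ (hw.1 i)).1, hw.2⟩, ⟨fun i => (hF'' _ _ _ (hw.1 i)).2, hw.2⟩⟩⟩)
    (by
      intro F
      have := hcon F
      unfold BD.Emp at this
      push Not at this
      obtain ⟨e, P, T, hg, hc⟩ := this
      exact ⟨(e, gr P T), hg, hc⟩)
  obtain ⟨v0⟩ := E1_nonempty S
  refine h ⟨p, ⟨E1_isF S ht p ?_, ?_, ?_⟩⟩
  · intro F
    refine Filter.mem_of_superset (hp (E1_mkB F (F.hg0 v0))) ?_
    intro w hw
    exact ⟨fun i => (hw.1 i).1, hw.2⟩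
  · intro n K hK g hg δ hδ
    have hk := hg (fun _ => none)
    induction n using ndc with
    | h0 i =>
      filter_upwards [hp { E1_mkB (E1_base S hK hk hδ) hk with
        b0 := fun v => g (lift1 i (some v) (fun _ => none))
        hb0 := fun v => hg _ }] with w hw
      rw [res_ins_n0]
      exact (hw.1 i).2.2.1
    | h1 i k =>
      filter_upwards [hp { E1_mkB (E1_base S hK hk hδ) hk with
        be := fun _ v s => g (lift1 i (some v) s)
        hbe := fun _ _ _ => hg _ }] with w hw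
      rw [res_ins_n1]
      exact (hw.1 i).2.2.2 k
  · intro n a ha K hK g hg δ hδ
    have hk := hg (fun _ => none)
    induction n using ndc with
    | h0 i => exact absurd ha (not_mem_anc_n0 i a)
    | h1 i k =>
      induction a using ndc with
      | h0 j =>
        obtain rfl := (n0_mem_anc_n1 i j k).1 ha
        filter_upwards [hp { E1_mkB (E1_base S hK hk hδ) hk with
          bx := fun _ s => g (lift1 j none s)
          hbx := fun _ _ => hg _ }] with w hw
        rw [res_seg_n0]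
        exact (hw.1 j).2.1.1 k
      | h1 j a =>
        obtain ⟨hj, ha'⟩ := (n1_mem_anc_n1 i j k a).1 ha
        subst hj
        filter_upwards [hp { E1_mkB (E1_base S hK hk hδ) hk with
          bn := fun _ _ s => g (lift1 j none s)
          hbn := fun _ _ _ => hg _ }] with w hw
        rw [res_seg_n1]
        exact (hw.1 j).2.1.2 k a ha'

end Pool.Agent.Lib.MP_b0c2b5_co.AT
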