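import Pool.Agent.Lib.MP_b0c2b5_co.Mg.G002

/-!
# AT, K7: EXT (paper 1.7).

PROOFS. `ext_copy`: `draw` with `E := univ`, `c := 1`, `Ds := {d | d ∈ r, ∀ w ∈ d, w.2 ∈ D0 w.1}`, `T :=` all `(b, s, K)` with `IsRes K` and `Unk r (fun w => (w.1, res s w.2)) (fun w => w.2 b) K`; the probabilities from `spread` for `r` and `D a := (D0 a).filter (fun z => (a, z) ∈ d)`: the set of the `a` with a good `θ` is in
`r.map Prod.fst = p.map X`. The image of `p'` under `fun w => (X w.1, w.2)` is below `r`, so equal to `r`. `copies`: induction on `t` (`Fin.snoc`): the new copy by `ext_copy` over the space of the old ones (`X` composed with `fst`); (third statement) for the new copy by the first part of `ext_copy`, for the old copies by the second part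
with `Y := (w.1, the other copies, res s of the own copy)`.
-/

set_option autoImplicit false

namespace Pool.Agent.Lib.MP_b0c2b5_co.AT

open LS Filter
open scoped Classical

variable {V : Type}

/-- 1.7 EXT -/
theorem ext_copy {Ω A I : Type} [Fintype I] (p : Ultrafilter Ω) (X : Ω → A) (r : Ultrafilter (A × (I → V)))
    (hr : r.map Prod.fst = p.map X) (D0 : A → Finset (I → V))
    (hD0 : ∀ᶠ w in (r : Filter (A × (I → V))), w.2 ∈ D0 w.1) :
    ∃ p' : Ultrafilter (Ω × (I → V)), p'.map Prod.fst = p ∧ p'.map (fun w => (X w.1, w.2)) = r ∧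
      (∀ (b : I) (s : Finset I) (K : Set (V → ℝ)), IsRes K →
        Unk r (fun w => (w.1, res s w.2)) (fun w => w.2 b) K →
        Unk p' (fun w => (w.1, res s w.2)) (fun w => w.2 b) K) ∧
      (∀ (D' : Type) (Y : Ω → D') (f : D' → A), (∀ ω, X ω = f (Y ω)) → ∀ (c : Ω → V) (K : Set (V → ℝ)), IsRes K →
        Unk p Y c K → Unk p' (fun w => (Y w.1, w.2)) (fun w => c w.1) K) := by
  obtain ⟨p', h1, -, h3, h4, h5⟩ := draw p X
    {e | IsRes e.2.2 ∧ Unk r (fun w => (w.1, res e.2.1 w.2)) (fun w => w.2 e.1) e.2.2} (fun e he => he.1)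
    {d | d ∈ r ∧ ∀ w ∈ d, w.2 ∈ D0 w.1} ⟨_, hD0, fun w hw => hw⟩
    (fun a ha b hb => ⟨inter_mem ha.1 hb.1, fun w hw => ha.2 w hw.1⟩) Set.univ (c := 1) one_pos (by
      intro d hd T' hT' δ hδ
      have hDa : ∀ᶠ w in (r : Filter (A × (I → V))), w.2 ∈ (D0 w.1).filter (fun z => (w.1, z) ∈ d) := by
        filter_upwards [hd.1] with w hw
        exact Finset.mem_filter.mpr ⟨hd.2 w hw, hw⟩
      have hsp := spread r (fun a => (D0 a).filter (fun z => (a, z) ∈ d)) hDa (fun j : T' => j.1.1)
        (fun j => j.1.2.1) (fun j => j.1.2.2) (fun j => (hT' j.2).1) (fun j => (hT' j.2).2) hδ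
      obtain ⟨P, hP⟩ : ∃ P : A → ((I → V) → ℝ) → Prop, P = fun a θ =>
        IsPr ((D0 a).filter (fun z => (a, z) ∈ d)) θ ∧ ∀ j : T', ∀ h : (I → Option V) → V → ℝ,
          (∀ s, h s ∈ j.1.2.2) → Ex ((D0 a).filter (fun z => (a, z) ∈ d)) θ
            (fun z => h (res j.1.2.1 z) (z j.1.1)) ≤ δ := ⟨_, rfl⟩
      have hsp2 : ∀ᶠ w in (r : Filter (A × (I → V))), ∃ θ, P w.1 θ := by
        rw [hP]
        exact hsp
      have hsp3 : ∀ᶠ a in ((r.map Prod.fst : Ultrafilter A) : Filter A), ∃ θ, P a θ := hsp2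
      rw [hr] at hsp3
      have hsp4 : ∀ᶠ ω in (p : Filter Ω), ∃ θ, P (X ω) θ := hsp3
      refine ⟨fun a => (D0 a).filter (fun z => (a, z) ∈ d),
        fun a => if h : ∃ θ, P a θ then h.choose else fun _ => 0, ?_⟩
      filter_upwards [hsp4] with ω hω
      rw [dif_pos hω]
      have hc := hω.choose_spec
      generalize hω.choose = θ0 at hc ⊢
      rw [hP] at hc
      refine ⟨hc.1, fun z hz => (Finset.mem_filter.mp hz).2, fun e he h hh => hc.2 ⟨e, he⟩ h hh, ?_⟩
      have h1 := hc.1.sum
      simp only [Pr, Ex, Set.mem_univ, if_true, mul_one]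
      exact h1.ge)
  refine ⟨p', h1, ?_, ?_, h5⟩
  · refine Ultrafilter.eq_of_le (fun s hs => ?_)
    exact mem_of_superset (h3 _ ⟨inter_mem hs hD0, fun w hw => hw.2⟩ : _ ∈ (p' : Filter (Ω × (I → V))))
      (fun w hw => hw.1)
  · intro b s K hK hu
    exact h4 (b, s, K) ⟨hK, hu⟩

/-- `t` independent copies -/
theorem copies {Ω A J : Type} [Fintype J] (t : ℕ) (p : Ultrafilter Ω) (X : Ω → A) (r : Ultrafilter (A × (J → V)))
    (hr : r.map Prod.fst = p.map X) (D0 : A → Finset (J → V))
    (hD0 : ∀ᶠ w in (r : Filter (A × (J → V))), w.2 ∈ D0 w.1) :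
    ∃ p' : Ultrafilter (Ω × (Fin t → J → V)), p'.map Prod.fst = p ∧
      (∀ i, p'.map (fun w => (X w.1, w.2 i)) = r) ∧
      (∀ (i : Fin t) (b : J) (s : Finset J) (K : Set (V → ℝ)), IsRes K →
        Unk r (fun w => (w.1, res s w.2)) (fun w => w.2 b) K →
        Unk p' (fun w => (w.1, fun j => if j = i then res s (w.2 i) else fun n => some (w.2 j n)))
          (fun w => w.2 i b) K) ∧
      (∀ (D' : Type) (Y : Ω → D') (f : D' → A), (∀ ω, X ω = f (Y ω)) → ∀ (c : Ω → V) (K : Set (V → ℝ)), IsRes K →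
        Unk p Y c K → Unk p' (fun w => (Y w.1, w.2)) (fun w => c w.1) K) := by
  induction t with
  | zero =>
    refine ⟨p.map (fun ω => (ω, fun i => i.elim0)), ?_, fun i => i.elim0, fun i => i.elim0, ?_⟩
    · rw [Ultrafilter.map_map]
      exact Ultrafilter.map_id p
    · intro D' Y f hf c K hK hu
      rw [unk_map]
      exact hu.comp (fun d => (d, fun i => i.elim0)) (Eventually.of_forall fun ω => rfl)
  | succ t ih =>
    obtain ⟨p1, a1, a2, a3, a4⟩ := ih
    have hr1 : r.map Prod.fst = p1.map (fun w => X w.1) := by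
      rw [hr, ← a1, Ultrafilter.map_map]
      rfl
    obtain ⟨p2, b1, b2, b3, b4⟩ := ext_copy p1 (fun w => X w.1) r hr1 D0 hD0
    obtain ⟨sn, hsn⟩ : ∃ sn : (Fin t → J → V) → (J → V) → Fin (t + 1) → J → V,
      sn = fun σ z => Fin.snoc (α := fun _ => J → V) σ z := ⟨_, rfl⟩
    have sn1 : ∀ σ z, sn σ z (Fin.last t) = z := fun σ z => by
      rw [hsn]
      exact Fin.snoc_last _ _
    have sn2 : ∀ σ z (i : Fin t), sn σ z i.castSucc = σ i := fun σ z i => by
      rw [hsn]
      exact Fin.snoc_castSucc _ _ _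
    refine ⟨p2.map (fun w => (w.1.1, sn w.1.2 w.2)), ?_, ?_, ?_, ?_⟩
    · rw [Ultrafilter.map_map, ← a1, ← b1, Ultrafilter.map_map]
      rfl
    · intro i
      rw [Ultrafilter.map_map]
      refine Fin.lastCases ?_ (fun i => ?_) i
      · simp only [Function.comp_def, sn1]
        exact b2
      · simp only [Function.comp_def, sn2]
        rw [← a2 i, ← b1, Ultrafilter.map_map]
        rfl
    · intro i
      refine Fin.lastCases ?_ (fun i => ?_) i
      · intro b s K hK hu
        rw [unk_map]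
        simp only [sn1]
        refine (b3 b s K hK hu).comp (fun d => (d.1.1, fun j =>
          Fin.snoc (α := fun _ => J → Option V) (fun i n => some (d.1.2 i n)) d.2 j))
          (Eventually.of_forall fun w => ?_)
        refine Prod.ext rfl (funext fun j => ?_)
        refine Fin.lastCases ?_ (fun j => ?_) j
        · simp only [if_true, Fin.snoc_last]
        · simp only [sn2, Fin.snoc_castSucc, if_neg (Fin.castSucc_lt_last j).ne]
      · intro b s K hK hu
        rw [unk_map]
        simp only [sn2]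
        have := b4 _ (fun w : Ω × (Fin t → J → V) => (w.1, fun j => if j = i then res s (w.2 i) else
          fun n => some (w.2 j n))) (fun d => X d.1) (fun ω => rfl) (fun w => w.2 i b) K hK (a3 i b s K hK hu)
        refine this.comp (fun d => (d.1.1, fun j =>
          Fin.snoc (α := fun _ => J → Option V) d.1.2 (fun n => some (d.2 n)) j))
          (Eventually.of_forall fun w => ?_)
        refine Prod.ext rfl (funext fun j => ?_)
        refine Fin.lastCases ?_ (fun j => ?_) j
        · simp only [sn1, Fin.snoc_last, if_neg (Fin.castSucc_lt_last i).ne']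
        · simp only [sn2, Fin.snoc_castSucc, Fin.castSucc_inj]
    · intro D' Y f hf c K hK hu
      rw [unk_map]
      have := b4 _ (fun w : Ω × (Fin t → J → V) => (Y w.1, w.2)) (fun d => f d.1) (fun w => hf w.1) (fun w => c w.1) K
        hK (a4 D' Y f hf c K hK hu)
      exact this.comp (fun d => (d.1.1, sn d.1.2 d.2)) (Eventually.of_forall fun w => rfl)

end Pool.Agent.Lib.MP_b0c2b5_co.AT
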