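import Mathlib

namespace Pool.Agent.Lib.MP_b0c2b5_co.FP

/-- `Reach φ k x y`: there is a `φ`-walk of length at most `k` from `x` to `y`. -/
def Reach {W : Type*} (φ : W → W → Prop) : ℕ → W → W → Prop
  | 0, x, y => x = y
  | k + 1, x, y => x = y ∨ ∃ z, φ x z ∧ Reach φ k z y

namespace Reach

variable {W : Type*} {φ : W → W → Prop}

theorem rfl' (k : ℕ) (x : W) : Reach φ k x x := by
  cases k with
  | zero => exact rfl
  | succ k => exact Or.inl rfl

theorem mono_succ {k : ℕ} : ∀ {x y : W}, Reach φ k x y → Reach φ (k + 1) x y := by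
  induction k with
  | zero => intro x y h; exact Or.inl h
  | succ k ih =>
    intro x y h
    rcases h with h | ⟨z, hz, h⟩
    · exact Or.inl h
    · exact Or.inr ⟨z, hz, ih h⟩

theorem mono {k l : ℕ} (hkl : k ≤ l) {x y : W} (h : Reach φ k x y) : Reach φ l x y := by
  induction hkl with
  | refl => exact h
  | step _ ih => exact mono_succ ih

theorem trans {k l : ℕ} : ∀ {x y z : W}, Reach φ k x y → Reach φ l y z →
    Reach φ (k + l) x z := by
  induction k with
  | zero =>
    intro x y z h h'
    have h0 : x = y := h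
    subst h0
    exact mono (by omega) h'
  | succ k ih =>
    intro x y z h h'
    rcases h with h | ⟨w, hw, h⟩
    · subst h
      exact mono (by omega) h'
    · have := ih h h'
      have e : k + 1 + l = (k + l) + 1 := by omega
      rw [e]
      exact Or.inr ⟨w, hw, this⟩

theorem single {x y : W} (h : φ x y) : Reach φ 1 x y := Or.inr ⟨y, h, rfl⟩

theorem symm (hs : ∀ x y, φ x y → φ y x) {k : ℕ} : ∀ {x y : W}, Reach φ k x y →
    Reach φ k y x := by
  induction k with
  | zero => intro x y h; exact Eq.symm h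
  | succ k ih =>
    intro x y h
    rcases h with h | ⟨z, hz, h⟩
    · exact Or.inl h.symm
    · have := ih h
      exact trans this (single (hs _ _ hz))

end Reach

/-- A graph (as a relation) all of whose finite neighbour sets have at most `D` elements has a
proper colouring with `D + 1` colours. -/
theorem exists_colour {W : Type*} (H : W → W → Prop) (hs : ∀ x y, H x y → H y x)
    (hirr : ∀ x, ¬ H x x) (D : ℕ)
    (hD : ∀ x, ∀ T : Finset W, (∀ y ∈ T, H x y) → T.card ≤ D) :
    ∃ col : W → Fin (D + 1), ∀ x y, H x y → col x ≠ col y := by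
  classical
  have hfin : ∀ x, {y | H x y}.Finite := by
    intro x
    by_contra hinf
    obtain ⟨T, hT, hc⟩ := (show Set.Infinite {y | H x y} from hinf).exists_subset_card_eq (D + 1)
    have := hD x T (fun y hy => hT hy)
    omega
  let r : W → W → Prop := WellOrderingRel
  have wf : WellFounded r := (inferInstance : IsWellOrder W WellOrderingRel).wf
  have key : ∀ (x : W) (f : ∀ y, r y x → Fin (D + 1)),
      ∃ c : Fin (D + 1), ∀ y (hy : r y x), H x y → f y hy ≠ c := by
    intro x f
    let N : Finset W := (hfin x).toFinset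
    let im : Finset (Fin (D + 1)) := N.image (fun y => if hy : r y x then f y hy else 0)
    have hc : im.card < Fintype.card (Fin (D + 1)) := by
      have h1 : im.card ≤ N.card := Finset.card_image_le
      have h2 : N.card ≤ D := hD x N (fun y hy => by simpa [N] using hy)
      simp only [Fintype.card_fin]
      omega
    obtain ⟨c, hc'⟩ := Finset.exists_mem_notMem_of_card_lt_card
      (s := im) (t := Finset.univ) (by simpa using hc)
    refine ⟨c, fun y hy hH heq => hc'.2 ?_⟩
    refine Finset.mem_image.2 ⟨y, by simpa [N] using hH, ?_⟩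
    simp [hy, heq]
  let col : W → Fin (D + 1) := wf.fix (fun x f => Classical.choose (key x f))
  have hcol : ∀ x y, r y x → H x y → col y ≠ col x := by
    intro x y hy hH
    have e : col x = Classical.choose (key x (fun y _ => col y)) := by
      exact wf.fix_eq _ x
    rw [e]
    exact Classical.choose_spec (key x (fun y _ => col y)) y hy hH
  refine ⟨col, fun x y hH => ?_⟩
  rcases trichotomous_of r x y with h | h | h
  · exact hcol y x h (hs _ _ hH)
  · subst h; exact absurd hH (hirr _)
  · exact (hcol x y h hH).symm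

/-- Maximal separated sets. -/
theorem exists_net {W : Type*} (E : W → W → Prop) (hs : ∀ x y, E x y → E y x)
    (hr : ∀ x, E x x) (A : Set W) :
    ∃ N : Set W, N ⊆ A ∧ (∀ x ∈ N, ∀ y ∈ N, x ≠ y → ¬ E x y) ∧ ∀ x ∈ A, ∃ n ∈ N, E n x := by
  obtain ⟨N, hN⟩ := zorn_subset {N : Set W | N ⊆ A ∧ (∀ x ∈ N, ∀ y ∈ N, x ≠ y → ¬ E x y)} (by
    intro c hc hch
    refine ⟨⋃₀ c, ⟨Set.sUnion_subset (fun s hs => (hc hs).1), ?_⟩, fun s hs =>
      Set.subset_sUnion_of_mem hs⟩
    rintro x ⟨s, hsc, hx⟩ y ⟨t, htc, hy⟩ hne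
    rcases hch.total hsc htc with h | h
    · exact (hc htc).2 x (h hx) y hy hne
    · exact (hc hsc).2 x hx y (h hy) hne)
  refine ⟨N, hN.prop.1, hN.prop.2, fun x hx => ?_⟩
  by_contra hcon
  simp only [not_exists, not_and] at hcon
  have hxN : x ∉ N := fun h => hcon x h (hr x)
  have hins : insert x N ∈ {N : Set W | N ⊆ A ∧ (∀ x ∈ N, ∀ y ∈ N, x ≠ y → ¬ E x y)} := by
    refine ⟨Set.insert_subset hx hN.prop.1, ?_⟩
    intro a ha b hb hab
    rcases ha with rfl | ha
    · rcases hb with rfl | hb
      · exact absurd rfl hab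
      · exact fun h => hcon b hb (hs _ _ h)
    · rcases hb with rfl | hb
      · exact fun h => hcon a ha h
      · exact hN.prop.2 a ha b hb hab
  have := hN.le_of_ge hins (Set.subset_insert x N)
  exact hxN (this (Set.mem_insert x N))

/-- NET: a doubling condition at ONE scale gives a map `c` moving points by at most `R` and a
finite colouring such that `φ`-related points of equal colour have the same image. -/
theorem net_colour {W : Type*} (φ : W → W → Prop) (hs : ∀ x y, φ x y → φ y x) (V' : Set W)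
    (R K : ℕ) (hR : 1 ≤ R)
    (hK : ∀ x ∈ V', ∀ T : Finset W, (∀ y ∈ T, y ∈ V' ∧ Reach φ (2 * R) x y) →
      (∀ y ∈ T, ∀ z ∈ T, y ≠ z → ¬ Reach φ R y z) → T.card ≤ K) :
    ∃ (c : W → W) (col : W → Fin (K * K + 1)),
      (∀ x ∈ V', c x ∈ V' ∧ Reach φ R (c x) x) ∧
      ∀ x ∈ V', ∀ y ∈ V', φ x y → col x = col y → c x = c y := by
  classical
  obtain ⟨N, hNV, hNsep, hNcov⟩ := exists_net (Reach φ R)
    (fun x y h => Reach.symm hs h) (fun x => Reach.rfl' R x) V'
  let c : W → W := fun x => if hx : x ∈ V' then (hNcov x hx).choose else x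
  have hc1 : ∀ x ∈ V', c x ∈ N ∧ Reach φ R (c x) x := by
    intro x hx
    have : c x = (hNcov x hx).choose := by simp [c, hx]
    rw [this]
    exact (hNcov x hx).choose_spec
  let H : W → W → Prop := fun n m => n ≠ m ∧ n ∈ N ∧ m ∈ N ∧
    ∃ x ∈ V', ∃ y ∈ V', Reach φ R n x ∧ φ x y ∧ Reach φ R y m
  have hHs : ∀ n m, H n m → H m n := by
    rintro n m ⟨hne, hn, hm, x, hx, y, hy, h1, h2, h3⟩
    exact ⟨hne.symm, hm, hn, y, hy, x, hx, Reach.symm hs h3, hs _ _ h2, Reach.symm hs h1⟩
  obtain ⟨col, hcol⟩ := exists_colour H hHs (fun x h => h.1 rfl) (K * K) (by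
    intro n T hT
    by_cases hTe : T = ∅
    · subst hTe; simp
    obtain ⟨t0, ht0⟩ := Finset.nonempty_iff_ne_empty.2 hTe
    have hnN : n ∈ N := (hT t0 ht0).2.1
    have hnV : n ∈ V' := hNV hnN
    -- maximal separated subset of the ball of radius 2R
    obtain ⟨C, hCA, hCsep, hCcov⟩ := exists_net (Reach φ R)
      (fun x y h => Reach.symm hs h) (fun x => Reach.rfl' R x)
      {y | y ∈ V' ∧ Reach φ (2 * R) n y}
    have hCfin : C.Finite := by
      by_contra hinf
      obtain ⟨T', hT', hc'⟩ := (show C.Infinite from hinf).exists_subset_card_eq (K + 1)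
      have := hK n hnV T' (fun y hy => hCA (hT' hy))
        (fun y hy z hz hne => hCsep y (hT' hy) z (hT' hz) hne)
      omega
    have hCcard : hCfin.toFinset.card ≤ K := by
      refine hK n hnV _ (fun y hy => hCA (by simpa using hy)) ?_
      intro y hy z hz hne
      exact hCsep y (by simpa using hy) z (by simpa using hz) hne
    have hsub : T ⊆ hCfin.toFinset.biUnion (fun a => T.filter (fun t => Reach φ (2 * R) a t)) := by
      intro t ht
      obtain ⟨hne, _, htN, x, hx, y, hy, h1, h2, h3⟩ := hT t ht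
      have hyA : y ∈ {y | y ∈ V' ∧ Reach φ (2 * R) n y} := by
        refine ⟨hy, Reach.mono (by omega) (Reach.trans h1 (Reach.single h2))⟩
      obtain ⟨a, haC, ha⟩ := hCcov y hyA
      refine Finset.mem_biUnion.2 ⟨a, by simpa using haC, Finset.mem_filter.2 ⟨ht, ?_⟩⟩
      exact Reach.mono (by omega) (Reach.trans ha h3)
    calc T.card ≤ (hCfin.toFinset.biUnion
          (fun a => T.filter (fun t => Reach φ (2 * R) a t))).card := Finset.card_le_card hsub
      _ ≤ ∑ a ∈ hCfin.toFinset, (T.filter (fun t => Reach φ (2 * R) a t)).card :=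
          Finset.card_biUnion_le
      _ ≤ ∑ a ∈ hCfin.toFinset, K := by
          refine Finset.sum_le_sum (fun a ha => ?_)
          refine hK a (hCA (by simpa using ha)).1 _ ?_ ?_
          · intro y hy
            rw [Finset.mem_filter] at hy
            exact ⟨hNV (hT y hy.1).2.2.1, hy.2⟩
          · intro y hy z hz hne
            rw [Finset.mem_filter] at hy hz
            exact hNsep y (hT y hy.1).2.2.1 z (hT z hz.1).2.2.1 hne
      _ = hCfin.toFinset.card * K := by rw [Finset.sum_const, smul_eq_mul]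
      _ ≤ K * K := Nat.mul_le_mul_right K hCcard)
  refine ⟨c, fun x => col (c x), fun x hx => ⟨hNV (hc1 x hx).1, (hc1 x hx).2⟩, ?_⟩
  intro x hx y hy hφ heq
  by_contra hne
  exact hcol (c x) (c y) ⟨hne, (hc1 x hx).1, (hc1 y hy).1, x, hx, y, hy, (hc1 x hx).2, hφ,
    Reach.symm hs (hc1 y hy).2⟩ heq

end Pool.Agent.Lib.MP_b0c2b5_co.FP
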