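import Pool.Agent.Lib.MP_b0c2b5_co.Mg.G008

/-!
# AT, Z2b: the theorem for posets

PROOF of `hasse_tree`: `final` (Red.lean) and `bounded` (Z1.lean).
-/

set_option autoImplicit false

namespace Pool.Agent.Lib.MP_b0c2b5_co.AT

open LS Filter
open scoped Classical

universe u v

theorem hasse_tree {W : Type v} [Finite W] (T : SimpleGraph W) (hT : T.IsTree) :
    ∃ C : ℕ, ∀ (P : Type u) [Finite P] [PartialOrder P],
      IsEmpty (T ↪g SimpleGraph.hasse P) → (SimpleGraph.hasse P).Colorable C :=
  final (fun _ _ _ W' h1 h2 => bounded W' h1 h2) T hT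

end Pool.Agent.Lib.MP_b0c2b5_co.AT
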